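import Pool.Agent.V5helper46.GP.Stm
import Pool.Agent.Y167.K.Lij

/-!
# GP, job LI: products over distinct scales are linearly independent
-/

set_option autoImplicit false

open PowerSeries Pool.Agent.Y113 Pool.Agent.Y120.J Pool.Agent.Y120.K
open Pool.Agent.Y37.GF (E SR mv)
open Filter Topology Set

namespace Pool.Agent.V5helper17.GP

open Pool.Agent.V5helper46.GP

theorem SR_rescale {f : ℚ⟦X⟧} {b : ℕ} {r : ℝ} (h : SR (b * r) f) :
    SR r (PowerSeries.rescale (b : ℚ) f) := by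
  refine h.congr fun m => ?_
  rw [coeff_rescale]
  push_cast
  rw [abs_mul, abs_pow, Nat.abs_cast, mul_pow]
  ring

theorem E_rescale (f : ℚ⟦X⟧) (b : ℚ) (x : ℝ) :
    E (PowerSeries.rescale b f) x = E f (b * x) := by
  unfold Pool.Agent.Y37.GF.E
  refine tsum_congr fun m => ?_
  rw [coeff_rescale]
  push_cast
  rw [mul_pow]
  ring

theorem SR_mon' {f : Fin 4 → ℚ⟦X⟧} {Δ : ℕ} (e : Ex Δ) {r : ℝ} (hr : 0 ≤ r) (h : ∀ i, SR r (f i)) :
    SR r (mon f e) := by
  unfold Pool.Agent.V5helper46.GP.mon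
  exact SR.prod _ hr fun i _ => (h i).pow hr _

theorem E_mon' {f : Fin 4 → ℚ⟦X⟧} {Δ : ℕ} (e : Ex Δ) {r : ℝ} (hr : 0 ≤ r) (h : ∀ i, SR r (f i))
    {z : ℝ} (hz : |z| ≤ r) : E (mon f e) z = mv (fun i => E (f i) z) e := by
  unfold Pool.Agent.V5helper46.GP.mon mv
  rw [Pool.Agent.Y37.GF.E_prod _ hr (fun i _ => (h i).pow hr _) hz]
  refine Finset.prod_congr rfl fun i _ => ?_
  rw [Pool.Agent.Y37.GF.E_pow hr (h i) hz]

/-- all scales -/
theorem multiB {f : Fin 4 → ℚ⟦X⟧} {z : ℝ} {u : ℝ → Fin 4 → ℝ} (hu : Cont f z u) (Δ : ℕ) (n : ℕ) :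
    ∀ (ι : Type) [Fintype ι] [DecidableEq ι] (b : ι → ℕ)
    (Q : (ι → Ex Δ) → Polynomial ℝ), Fintype.card ι = n → Function.Injective b → (∀ l, 1 ≤ b l) →
    (∀ᶠ x in 𝓝[>] (0 : ℝ), ∑ B, (Q B).eval x * ∏ l, mv (u (b l * x)) (B l) = 0) →
    ∀ B, Q B = 0 := by
  obtain ⟨hz, hua, -, huv⟩ := hu
  induction n with
  | zero =>
    intro ι _ _ b Q hcard _ _ h B
    have : IsEmpty ι := Fintype.card_eq_zero_iff.1 hcard
    apply Pool.Agent.Y167.K.poly_zero'
    filter_upwards [h] with x hx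
    rw [Fintype.sum_eq_single B (fun b' hb' => absurd (Subsingleton.elim b' B) hb')] at hx
    simpa using hx
  | succ n ih =>
    intro ι _ _ b Q hcard hb hb1 h B
    have hne : (Finset.univ : Finset ι).Nonempty := by
      rw [← Finset.card_pos, Finset.card_univ, hcard]; omega
    obtain ⟨l₁, -, hl₁⟩ := Finset.exists_max_image Finset.univ b hne
    let e := Equiv.funSplitAt l₁ (Ex Δ)
    have hβ0 : (0 : ℝ) < b l₁ := by exact_mod_cast hb1 l₁
    -- the coefficients
    let c : Ex Δ → ℝ → ℝ := fun x y => ∑ b' : {j // j ≠ l₁} → Ex Δ,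
      (Q (e.symm (x, b'))).eval (y / b l₁) * ∏ l : {j // j ≠ l₁}, mv (u (b l * (y / b l₁))) (b' l)
    have hlt : ∀ l : {j // j ≠ l₁}, (b l : ℝ) < b l₁ := by
      intro l
      have h1 : b l < b l₁ := lt_of_le_of_ne (hl₁ l (Finset.mem_univ _)) fun h => l.2 (hb h)
      exact_mod_cast h1
    have hcan : ∀ x, ∀ y ∈ Icc 0 z, AnalyticAt ℝ (c x) y := by
      intro x y hy
      refine Finset.analyticAt_fun_sum _ fun b' _ => ?_
      have hdiv : AnalyticAt ℝ (fun y : ℝ => y / (b l₁ : ℝ)) y :=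
        analyticAt_id.div analyticAt_const hβ0.ne'
      refine AnalyticAt.mul ?_ ?_
      · exact AnalyticAt.comp (g := fun y : ℝ => (Q (e.symm (x, b'))).eval y)
          (f := fun y : ℝ => y / (b l₁ : ℝ)) (x := y)
          ((AnalyticOnNhd.eval_polynomial (𝕜 := ℝ) _) (y / b l₁) (Set.mem_univ _)) hdiv
      · refine Finset.analyticAt_fun_prod _ fun l _ => ?_
        have hb0 : (0 : ℝ) ≤ b l := Nat.cast_nonneg _
        have hin : (b l : ℝ) * (y / b l₁) ∈ Set.Ico 0 z := by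
          have h2 : (b l : ℝ) * (y / b l₁) = (b l / b l₁) * y := by ring
          refine ⟨mul_nonneg hb0 (div_nonneg hy.1 hβ0.le), ?_⟩
          rw [h2]
          have h3 : (b l : ℝ) / b l₁ < 1 := (div_lt_one hβ0).2 (hlt l)
          calc (b l : ℝ) / b l₁ * y ≤ (b l : ℝ) / b l₁ * z :=
                mul_le_mul_of_nonneg_left hy.2 (div_nonneg hb0 hβ0.le)
            _ < 1 * z := mul_lt_mul_of_pos_right h3 hz
            _ = z := one_mul z
        have h4 : AnalyticAt ℝ (fun y => mv (u y) (b' l)) ((b l : ℝ) * (y / b l₁)) :=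
          Pool.Agent.Y167.K.mv_an _ fun i => hua _ hin i
        have h5 : AnalyticAt ℝ (fun y : ℝ => (b l : ℝ) * (y / b l₁)) y := analyticAt_const.mul hdiv
        exact AnalyticAt.comp (g := fun y => mv (u y) (b' l))
          (f := fun y : ℝ => (b l : ℝ) * (y / b l₁)) (x := y) h4 h5
    have hsum : ∀ y : ℝ, ∑ B, (Q B).eval (y / b l₁) * ∏ l, mv (u (b l * (y / b l₁))) (B l)
        = ∑ x, c x y * mv (u y) x := by
      intro y
      rw [← e.symm.sum_comp, Fintype.sum_prod_type]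
      refine Finset.sum_congr rfl fun x _ => ?_
      rw [Finset.sum_mul]
      refine Finset.sum_congr rfl fun b' _ => ?_
      rw [Fintype.prod_eq_mul_prod_subtype_ne _ l₁]
      have h1 : e.symm (x, b') l₁ = x := by simp [e, Equiv.funSplitAt, Equiv.piSplitAt]
      have h2 : ∀ l : {j // j ≠ l₁}, e.symm (x, b') l = b' l := by
        intro l; simp [e, Equiv.funSplitAt, Equiv.piSplitAt, l.2]
      rw [h1]
      simp only [h2]
      have h3 : (b l₁ : ℝ) * (y / b l₁) = y := by field_simp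
      rw [h3]
      ring
    have htend : Tendsto (fun y : ℝ => y / (b l₁ : ℝ)) (𝓝[>] 0) (𝓝[>] 0) := by
      rw [tendsto_nhdsWithin_iff]
      constructor
      · have : Tendsto (fun y : ℝ => y / (b l₁ : ℝ)) (𝓝 0) (𝓝 (0 / (b l₁ : ℝ))) :=
          tendsto_id.div_const _
        rw [zero_div] at this
        exact this.mono_left nhdsWithin_le_nhds
      · filter_upwards [self_mem_nhdsWithin] with y hy
        exact div_pos hy hβ0
    have hz0 := huv Δ c hcan ((htend.eventually h).mono fun y hy => by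
      rw [← hsum]; exact hy)
    have hI : Ioo 0 (z / b l₁) ∈ 𝓝[>] (0 : ℝ) := Ioo_mem_nhdsGT (div_pos hz hβ0)
    have key : ∀ x, ∀ b', Q (e.symm (x, b')) = 0 := by
      intro x
      refine ih {j // j ≠ l₁} (fun l => b l) (fun b' => Q (e.symm (x, b'))) ?_ ?_ ?_ ?_
      · rw [Fintype.card_subtype_compl, hcard]; simp
      · intro a a' hab; exact Subtype.ext (hb hab)
      · intro l; exact hb1 l
      · filter_upwards [hI] with y hy
        have h1 : (b l₁ : ℝ) * y ∈ Ioo 0 z := by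
          refine ⟨mul_pos hβ0 hy.1, ?_⟩
          have := (lt_div_iff₀ hβ0).1 hy.2
          rwa [mul_comm] at this
        have h2 := hz0 _ h1 x
        have h3 : (b l₁ : ℝ) * y / b l₁ = y := by field_simp
        simp only [c, h3] at h2
        exact h2
    have := key (e B).1 (e B).2
    rwa [Prod.mk.eta, Equiv.symm_apply_apply] at this

theorem t_LI : S_LI := by
  intro f z u hsd hu k Δ b hb hb1
  rw [Fintype.linearIndependent_iff]
  intro Q hQ
  -- a common radius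
  obtain ⟨r₀, hr₀, hf₀⟩ : ∃ r : ℝ, 0 < r ∧ ∀ i, SR r (f i) := by
    have h1 : ∀ i, ∃ r : ℝ, 0 < r ∧ SR r (f i) := by
      intro i
      obtain ⟨n, hn⟩ := hsd i
      exact ⟨_, by positivity, Pool.Agent.Y167.K.SR_of_SDp hn⟩
    choose r hr hs using h1
    obtain ⟨i₀, -, hi₀⟩ := Finset.exists_min_image Finset.univ r ⟨0, Finset.mem_univ _⟩
    exact ⟨r i₀, hr i₀, fun i => (hs i).mono (hr i₀).le (hi₀ i (Finset.mem_univ _))⟩
  obtain ⟨β, hβ, hbβ⟩ : ∃ β : ℕ, 1 ≤ β ∧ ∀ l, b l ≤ β :=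
    ⟨1 + ∑ l, b l, by omega, fun l => (Finset.single_le_sum (fun _ _ => Nat.zero_le _)
      (Finset.mem_univ l)).trans (by omega)⟩
  have hβ0 : (0 : ℝ) < β := by exact_mod_cast hβ
  set r : ℝ := r₀ / β with hr
  have hr0 : 0 < r := div_pos hr₀ hβ0
  have hbr : ∀ l, (b l : ℝ) * r ≤ r₀ := by
    intro l
    have h1 : (b l : ℝ) ≤ β := by exact_mod_cast hbβ l
    calc (b l : ℝ) * r ≤ β * r := mul_le_mul_of_nonneg_right h1 hr0.le
      _ = r₀ := by rw [hr]; field_simp
  have hSR : ∀ B : Fin k → Ex Δ, ∀ l ∈ (Finset.univ : Finset (Fin k)),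
      SR r (PowerSeries.rescale (b l : ℚ) (mon f (B l))) := fun B l _ =>
    SR_rescale ((SR_mon' (B l) hr₀.le hf₀).mono (by positivity) (hbr l))
  have hSP : ∀ B : Fin k → Ex Δ, SR r (∏ l, PowerSeries.rescale (b l : ℚ) (mon f (B l))) :=
    fun B => SR.prod _ hr0.le (hSR B)
  have hval : ∀ x : ℝ, |x| ≤ r → ∑ B, ((Q B).map (Rat.castHom ℝ)).eval x *
      ∏ l, mv (fun i => E (f i) (b l * x)) (B l) = 0 := by
    intro x hx
    have h1 : E (∑ B, Q B • ∏ l, PowerSeries.rescale (b l : ℚ) (mon f (B l))) x = 0 := by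
      rw [hQ]; simp [E]
    have h2 : ∀ B : Fin k → Ex Δ, Q B • ∏ l, PowerSeries.rescale (b l : ℚ) (mon f (B l)) =
        (Q B : PowerSeries ℚ) * ∏ l, PowerSeries.rescale (b l : ℚ) (mon f (B l)) := fun B => by
      rw [Algebra.smul_def]; rfl
    simp only [h2] at h1
    rw [Pool.Agent.Y37.GF.E_sum _ hr0.le (fun B _ => (SR.poly _ _).mul hr0.le (hSP B)) hx] at h1
    rw [← h1]
    refine Finset.sum_congr rfl fun B _ => ?_
    rw [Pool.Agent.Y37.GF.E_mul (SR.poly _ _) (hSP B) hx, Pool.Agent.Y37.GF.E_poly]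
    rw [Pool.Agent.Y37.GF.E_prod _ hr0.le (hSR B) hx]
    congr 1
    · rw [Polynomial.eval_map, Polynomial.aeval_def]; rfl
    · refine Finset.prod_congr rfl fun l _ => ?_
      rw [E_rescale]
      push_cast
      refine (E_mon' (B l) hr₀.le hf₀ ?_).symm
      rw [abs_mul, Nat.abs_cast]
      exact (mul_le_mul_of_nonneg_left hx (Nat.cast_nonneg _)).trans (hbr l)
  have hsmall : ∀ᶠ x in 𝓝 (0 : ℝ), ∀ l, ∀ i, u (b l * x) i = E (f i) (b l * x) := by
    rw [eventually_all]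
    intro l
    have h1 : Tendsto (fun x : ℝ => (b l : ℝ) * x) (𝓝 0) (𝓝 0) := by
      have := (tendsto_id (α := ℝ) (x := 𝓝 0)).const_mul (b l : ℝ)
      simpa using this
    exact h1.eventually hu.2.2.1
  have hball : ∀ᶠ x in 𝓝 (0 : ℝ), |x| ≤ r := by
    have : Metric.ball (0 : ℝ) r ∈ 𝓝 (0 : ℝ) := Metric.ball_mem_nhds _ hr0
    filter_upwards [this] with x hx
    rw [mem_ball_zero_iff, Real.norm_eq_abs] at hx
    exact hx.le
  have main := multiB hu Δ k (Fin k) b (fun B => (Q B).map (Rat.castHom ℝ))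
    (Fintype.card_fin k) hb hb1 (by
      filter_upwards [nhdsWithin_le_nhds hsmall, nhdsWithin_le_nhds hball] with x h1 h2
      rw [← hval x h2]
      refine Finset.sum_congr rfl fun B _ => ?_
      congr 1
      refine Finset.prod_congr rfl fun l _ => ?_
      congr 1
      exact funext (h1 l))
  intro B
  have := main B
  rwa [Polynomial.map_eq_zero] at this

end Pool.Agent.V5helper17.GP
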