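import Pool.Agent.V5helper46.GP.Stm
import Pool.Agent.Y167.K.Lij
import Pool.Agent.Y929.K.Nrj

/-!
# GP, job NR: no relations of bounded degree between the values for different scales
-/

set_option autoImplicit false

open PowerSeries Pool.Agent.Y113 Pool.Agent.Y120.J Pool.Agent.Y120.K
open Pool.Agent.Y929.K (mkE mkE_inj monJ_mkE)
open Filter Topology Set

namespace Pool.Agent.V5helper17.GP

open Pool.Agent.V5helper46.GP

/-- the rescaled functions -/
noncomputable def fB (s fl : Bool) (g b : ℕ) (i : Fin 4) : ℚ⟦X⟧ :=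
  PowerSeries.rescale (sc fl b : ℚ) (fJ s g i)

lemma monB_mkE {δ : ℕ} (s fl : Bool) (g b : ℕ) (a : Fin 3 → ℕ) (h : ∑ i, a i ≤ δ) :
    monB s fl g b (mkE a h) = ∏ i : Fin 3, fB s fl g b i.castSucc ^ a i := by
  unfold monB
  rw [monJ_mkE, map_prod]
  refine Finset.prod_congr rfl fun i _ => ?_
  rw [map_pow]
  rfl

lemma sc_abs (fl : Bool) (b : ℕ) : |((sc fl b : ℤ) : ℝ)| = ((max b 1 : ℕ) : ℝ) := by
  unfold sc dr
  cases fl
  · simp
  · simp only [if_true]
    push_cast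
    rw [neg_mul, one_mul, abs_neg, abs_of_nonneg (by positivity)]

lemma sc_ne (fl : Bool) (b : ℕ) : sc fl b ≠ 0 := by
  intro h
  have h1 := sc_abs fl b
  rw [h] at h1
  simp only [Int.cast_zero, abs_zero] at h1
  have h2 : (1 : ℕ) ≤ max b 1 := le_max_right _ _
  have h3 : (1 : ℝ) ≤ ((max b 1 : ℕ) : ℝ) := by exact_mod_cast h2
  linarith

lemma sc_abs_le (fl : Bool) (b : ℕ) : |((sc fl b : ℤ) : ℝ)| ≤ (b : ℝ) + 2 := by
  rw [sc_abs]
  have h2 : max b 1 ≤ b + 2 := by omega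
  exact_mod_cast h2

lemma poly_ne {T : Polynomial ℤ} (hT : T ≠ 0) : ∃ ρ : ℝ, 0 < ρ ∧ ∀ x : ℝ, x ≠ 0 → |x| < ρ →
    Polynomial.aeval x T ≠ 0 := by
  set P : Polynomial ℝ := T.map (Int.castRingHom ℝ) with hP
  have hP0 : P ≠ 0 := by
    rw [hP, Ne, Polynomial.map_eq_zero_iff (RingHom.injective_int _)]
    exact hT
  have hfin : ({x | P.IsRoot x} \ {0}).Finite := (Polynomial.finite_setOfPred_isRoot hP0).sdiff
  have hop : ({x | P.IsRoot x} \ {0})ᶜ ∈ 𝓝 (0 : ℝ) :=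
    hfin.isClosed.isOpen_compl.mem_nhds fun h => h.2 rfl
  obtain ⟨ρ, hρ, hsub⟩ := Metric.mem_nhds_iff.1 hop
  refine ⟨ρ, hρ, fun x hx hxρ h => ?_⟩
  have h1 : x ∈ Metric.ball (0 : ℝ) ρ := by
    rw [mem_ball_zero_iff, Real.norm_eq_abs]; exact hxρ
  refine hsub h1 ⟨?_, hx⟩
  show P.eval x = 0
  rw [hP, Polynomial.eval_map]
  rw [Polynomial.aeval_def] at h
  exact h

theorem hmB (hgs : S_GS) (s fl : Bool) (g Δ : ℕ) : ∃ (q E c : ℕ) (Tg : ℕ → Polynomial ℤ),
    (∀ b : ℕ, GSys q (((b : ℝ) + 2) ^ E) (Tg b) (fun e : Pool.Agent.Y113.Ex Δ => monB s fl g b e)) ∧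
    ∀ b t : ℕ, (b + 2) ^ c ≤ t → Polynomial.aeval (1 / (t : ℝ)) (Tg b) ≠ 0 := by
  obtain ⟨q, E₀, c₀, T, sys, ne⟩ := hmon s Δ
  obtain ⟨n, hn⟩ := pow_unbounded_of_one_lt (((g : ℝ) + 2) ^ E₀) (one_lt_two (α := ℝ))
  have hT0 : T g ≠ 0 := by
    intro h
    have := ne g (g + c₀ + 1) (by omega)
    rw [h, map_zero] at this
    exact this rfl
  obtain ⟨ρ, hρ, hρT⟩ := poly_ne hT0
  obtain ⟨k, hk⟩ := pow_unbounded_of_one_lt (1 / ρ) (one_lt_two (α := ℝ))
  refine ⟨q, n + (q + 1), k + 1, fun b => (T g).comp (Polynomial.C (sc fl b) * Polynomial.X),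
    fun b => ?_, fun b t hbt => ?_⟩
  · refine (hgs _ q _ (T g) _ (sys g) (sc fl b) (sc_ne fl b)).mono le_rfl ?_
    rw [show ((b : ℝ) + 2) ^ (n + (q + 1)) = ((b : ℝ) + 2) ^ n * ((b : ℝ) + 2) ^ (q + 1) from
      pow_add _ _ _]
    have h1 : (2 : ℝ) ≤ (b : ℝ) + 2 := by
      have : (0 : ℝ) ≤ b := Nat.cast_nonneg _
      linarith
    refine mul_le_mul (hn.le.trans (pow_le_pow_left₀ (by norm_num) h1 n))
      (pow_le_pow_left₀ (abs_nonneg _) (sc_abs_le fl b) _) (by positivity) (by positivity)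
  · rw [Polynomial.aeval_comp, map_mul, Polynomial.aeval_C, Polynomial.aeval_X]
    have ht0 : 0 < t := lt_of_lt_of_le (by positivity) hbt
    have ht : (0 : ℝ) < t := by exact_mod_cast ht0
    have h0 : (algebraMap ℤ ℝ (sc fl b)) = ((sc fl b : ℤ) : ℝ) := rfl
    rw [h0]
    refine hρT _ (mul_ne_zero (by exact_mod_cast sc_ne fl b) (by positivity)) ?_
    rw [abs_mul, abs_of_pos (one_div_pos.2 ht)]
    have h1 : (2 : ℝ) ≤ (b : ℝ) + 2 := by
      have : (0 : ℝ) ≤ b := Nat.cast_nonneg _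
      linarith
    have h2 : ((b : ℝ) + 2) ^ (k + 1) ≤ t := by exact_mod_cast hbt
    have h3 : 1 / ρ < ((b : ℝ) + 2) ^ k := hk.trans_le (pow_le_pow_left₀ (by norm_num) h1 k)
    have h4 : ((b : ℝ) + 2) / ρ < t := by
      calc ((b : ℝ) + 2) / ρ = ((b : ℝ) + 2) * (1 / ρ) := by ring
        _ < ((b : ℝ) + 2) * ((b : ℝ) + 2) ^ k := by
            exact mul_lt_mul_of_pos_left h3 (by linarith)
        _ = ((b : ℝ) + 2) ^ (k + 1) := by ring
        _ ≤ t := h2
    rw [div_lt_iff₀ hρ] at h4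
    calc |((sc fl b : ℤ) : ℝ)| * (1 / (t : ℝ)) ≤ ((b : ℝ) + 2) * (1 / (t : ℝ)) :=
          mul_le_mul_of_nonneg_right (sc_abs_le fl b) (by positivity)
      _ = ((b : ℝ) + 2) / t := by ring
      _ < ρ := by rw [div_lt_iff₀ ht]; linarith

/-- sizes of the first three functions -/
lemma size_fB (hgs : S_GS) (s fl : Bool) (g : ℕ) : ∃ E : ℕ, ∀ (b : ℕ) (i : Fin 3) (m : ℕ),
    |((coeff m (fB s fl g b i.castSucc) : ℚ) : ℝ)| ≤ (((b : ℝ) + 2) ^ E) ^ (m + 1) := by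
  obtain ⟨q, E, c, Tg, sys, ne⟩ := hmB hgs s fl g 1
  refine ⟨E, fun b i m => ?_⟩
  have h0 : ∑ j : Fin 3, (if j = i then 1 else 0 : ℕ) ≤ 1 := by simp
  have h1 := (sys b).size (mkE (fun j => if j = i then 1 else 0) h0) m
  have h2 : monB s fl g b (mkE (fun j => if j = i then 1 else 0) h0) = fB s fl g b i.castSucc := by
    rw [monB_mkE, Finset.prod_eq_single i]
    · rw [if_pos rfl, pow_one]
    · intro j _ hj
      rw [if_neg hj, pow_zero]
    · intro h
      exact absurd (Finset.mem_univ _) h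
  rw [← h2]
  exact h1

lemma SDc_fJ (s : Bool) (g : ℕ) (i : Fin 4) : SDc (fJ s g i) := by
  obtain ⟨E, hE⟩ := Pool.Agent.Y167.K.SDE_fJ s i
  obtain ⟨n, hn⟩ := pow_unbounded_of_one_lt (((g : ℝ) + 2) ^ E) (one_lt_two (α := ℝ))
  exact ⟨n, (hE g).mono hn.le⟩

lemma LIB (hli : S_LI) (hfl : S_FL) (s fl : Bool) (g : ℕ)
    (hc : ∃ (z : ℝ) (u : ℝ → Fin 4 → ℝ), Cont (fJ s g) z u) (N Δ : ℕ) (b : Fin N → ℕ)
    (hb : Function.Injective b) (hb1 : ∀ l, 1 ≤ b l) :
    LinearIndependent (Polynomial ℚ)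
      (fun e : Fin N → Pool.Agent.Y113.Ex Δ => ∏ l, monB s fl g (b l) (e l)) := by
  obtain ⟨z, u, hu⟩ := hc
  have h1 := hli (fJ s g) z u (SDc_fJ s g) hu N Δ b hb hb1
  cases fl
  · have h2 : (fun e : Fin N → Pool.Agent.Y113.Ex Δ => ∏ l, monB s false g (b l) (e l)) =
        fun e => ∏ l, PowerSeries.rescale (b l : ℚ) (mon (fJ s g) (e l)) := by
      funext e
      refine Finset.prod_congr rfl fun l _ => ?_
      have h3 : ((sc false (b l) : ℤ) : ℚ) = (b l : ℚ) := by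
        have : sc false (b l) = (b l : ℤ) := by
          have := hb1 l
          simp [sc, dr, this]
        rw [this]; rfl
      show PowerSeries.rescale ((sc false (b l) : ℤ) : ℚ) (monJ s g (e l)) = _
      rw [h3]
      rfl
    rw [h2]
    exact h1
  · have h2 : (fun e : Fin N → Pool.Agent.Y113.Ex Δ => ∏ l, monB s true g (b l) (e l)) =
        fun e => PowerSeries.rescale (-1 : ℚ)
          (∏ l, PowerSeries.rescale (b l : ℚ) (mon (fJ s g) (e l))) := by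
      funext e
      rw [map_prod]
      refine Finset.prod_congr rfl fun l _ => ?_
      have h3 : ((sc true (b l) : ℤ) : ℚ) = (b l : ℚ) * (-1) := by
        have : sc true (b l) = -(b l : ℤ) := by
          have := hb1 l
          simp [sc, dr, this]
        rw [this]; push_cast; ring
      show PowerSeries.rescale ((sc true (b l) : ℤ) : ℚ) (monJ s g (e l)) = _
      rw [h3, ← PowerSeries.rescale_rescale]
      rfl
    rw [h2]
    exact hfl _ _ h1

lemma ev_fB (s fl : Bool) (g t b : ℕ) (i : Fin 4) :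
    ev (t : ℝ) (fB s fl g b i) = ev ((t : ℝ) / (sc fl b : ℝ)) (fJ s g i) := by
  have h0 : ((sc fl b : ℤ) : ℝ) ≠ 0 := by exact_mod_cast sc_ne fl b
  unfold fB ev
  refine tsum_congr fun m => ?_
  rw [coeff_rescale]
  push_cast
  rw [one_div_div, div_pow, one_pow, div_pow]
  ring

set_option maxHeartbeats 800000 in
theorem t_NR (hli : S_LI) (hfl : S_FL) (hgs : S_GS) (hlr : S_LR) : S_NR := by
  classical
  intro s fl g hc N δ
  obtain ⟨E₁, hE₁⟩ := size_fB hgs s fl g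
  obtain ⟨q, E₀, c, Tg, sys, ne⟩ := hmB hgs s fl g δ
  have h00 : ∑ i : Fin 3, (fun _ : Fin 3 => 0) i ≤ δ := by simp
  obtain ⟨E, hE⟩ := hlr (Pool.Agent.Y113.Ex δ)
    (fun b (e : Pool.Agent.Y113.Ex δ) => monB s fl g b e) Tg q E₀ c
    (mkE (fun _ => 0) h00) (fun b => by
      show monB s fl g b (mkE (fun _ => 0) h00) = 1
      rw [monB_mkE]
      simp) sys ne N
  refine ⟨E + (E₁ + 2), ?_⟩
  intro H t ht b hb hbH P hP hP0
  have hLI := hE H t ((Nat.pow_le_pow_right (by omega) (by omega)).trans ht) b (fun l => (hbH l).2)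
    (LIB hli hfl s fl g hc N δ b hb fun l => (hbH l).1)
  have ht0' : 0 < t := lt_of_lt_of_le (by positivity) ht
  have ht0 : (0 : ℝ) < t := by exact_mod_cast ht0'
  have hcv : ∀ (l : Fin N) (i : Fin 3), Cv (t : ℝ) (fB s fl g (b l) i.castSucc) := by
    intro l i
    set B : ℝ := ((b l : ℝ) + 2) ^ E₁ with hB
    have hB0 : 0 ≤ B := by positivity
    refine Cv.of_bound (A := B) (B := B) ht0 hB0 ?_ fun m => ?_
    · have hH0 : (0 : ℝ) ≤ H := by positivity
      have h2 : B ≤ ((H : ℝ) + 2) ^ E₁ := by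
        refine pow_le_pow_left₀ (by positivity) ?_ _
        have : ((b l : ℕ) : ℝ) ≤ H := by exact_mod_cast (hbH l).2
        linarith
      have h3 : ((H : ℝ) + 2) ^ E₁ < ((H : ℝ) + 2) ^ (E₁ + 2) :=
        pow_lt_pow_right₀ (by linarith) (by omega)
      have h4 : ((H : ℝ) + 2) ^ (E₁ + 2) ≤ (t : ℝ) := by
        have h5 : (H + 2) ^ (E₁ + 2) ≤ t := (Nat.pow_le_pow_right (by omega) (by omega)).trans ht
        exact_mod_cast h5
      linarith
    · exact (hE₁ (b l) i m).trans (le_of_eq (pow_succ' _ _))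
  -- the exponents
  have hdeg : ∀ m ∈ P.support, ∑ p, m p ≤ δ := by
    intro m hm'
    have h1 := (MvPolynomial.le_totalDegree hm').trans hP
    rwa [Finsupp.sum_fintype _ _ (fun _ => rfl)] at h1
  have hdl : ∀ m ∈ P.support, ∀ l : Fin N, ∑ i : Fin 3, m (l, i) ≤ δ := by
    intro m hm' l
    refine le_trans ?_ (hdeg m hm')
    rw [Fintype.sum_prod_type]
    exact Finset.single_le_sum (f := fun l => ∑ i : Fin 3, m (l, i)) (fun _ _ => Nat.zero_le _)
      (Finset.mem_univ l)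
  let bs : P.support → Fin N → Pool.Agent.Y113.Ex δ := fun m l =>
    mkE (fun i => (m : (Fin N × Fin 3) →₀ ℕ) (l, i)) (hdl m m.2 l)
  have hbs : Function.Injective bs := by
    intro m m' h
    apply Subtype.ext
    ext ⟨l, i⟩
    exact congrFun (mkE_inj _ _ (congrFun h l)) i
  have hLI2 := hLI.comp bs hbs
  -- the values
  have hval : ∀ m : P.support,
      ∏ p : Fin N × Fin 3, (vB s fl g t (b p.1) p.2) ^ (m : (Fin N × Fin 3) →₀ ℕ) p =
      ((∏ l, ev (t : ℝ) (monB s fl g (b l) (bs m l)) : ℝ) : ℂ) := by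
    intro m
    rw [Fintype.prod_prod_type, Complex.ofReal_prod]
    refine Finset.prod_congr rfl fun l _ => ?_
    show _ = ((ev (t : ℝ) (monB s fl g (b l)
      (mkE (fun i => (m : (Fin N × Fin 3) →₀ ℕ) (l, i)) (hdl m m.2 l))) : ℝ) : ℂ)
    rw [monB_mkE, Cv.ev_prod ht0 Finset.univ
      (fun i : Fin 3 => fB s fl g (b l) i.castSucc ^ (m : (Fin N × Fin 3) →₀ ℕ) (l, i))
      (fun i _ => (hcv l i).pow ht0 _), Complex.ofReal_prod]
    refine Finset.prod_congr rfl fun i _ => ?_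
    rw [Cv.ev_pow ht0 (hcv l i), Complex.ofReal_pow, ev_fB]
    rfl
  have hrel : ∑ m : P.support, P.coeff m • ∏ l, ev (t : ℝ) (monB s fl g (b l) (bs m l)) = 0 := by
    have h1 : ((∑ m : P.support, P.coeff m •
        ∏ l, ev (t : ℝ) (monB s fl g (b l) (bs m l)) : ℝ) : ℂ) = 0 := by
      rw [← hP0, MvPolynomial.aeval_def, MvPolynomial.eval₂_eq', Complex.ofReal_sum,
        ← Finset.sum_coe_sort P.support]
      refine Finset.sum_congr rfl fun m _ => ?_
      rw [hval m, Rat.smul_def, Complex.ofReal_mul, Complex.ofReal_ratCast, eq_ratCast]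
    exact_mod_cast h1
  have h2 := (Fintype.linearIndependent_iff.1 hLI2) (fun m => P.coeff m) hrel
  by_contra hP1
  obtain ⟨m, hm'⟩ := MvPolynomial.ne_zero_iff.1 hP1
  exact hm' (h2 ⟨m, MvPolynomial.mem_support_iff.2 hm'⟩)

end Pool.Agent.V5helper17.GP
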